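import Pool.Agent.V7H96.SS.Fin

/-!
# SparseStack matrices of constant sparsity are not oblivious subspace injections

For every bound `C₁` on the sparsity, every `C₂` and every `α > 0`, a SparseStack matrix with
sparsity `ζ ≤ C₁` and `k = b ζ ≤ C₂ r` columns fails, with probability tending to one as `r → ∞`, to
be injective with parameter `α` on the span of the first `r` coordinate vectors. Negative answer
to Q1 and Q2.

Proof. With high probability there are a row `i₀` and, for each block `j`, a set of `m` other rows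
(all these rows distinct) whose position in the block `j` is that of `i₀`. The vector with entry `1`
at `i₀` and entries `± 1 / m` at the other rows, with the signs which cancel the contribution of `i₀`
in each block, has energy at most `ζ / m` on average over the signs of the matrix.
-/

set_option autoImplicit false

namespace Pool.Agent.Results.MP_59a663_pr.NoConstantSparsityH96

open Finset

/-- An outcome: the positions `s i j` and the signs `ρ i j` (`true` for `+1`, `false` for `-1`). -/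
abbrev Outcome (n ζ b : ℕ) : Type := (Fin n → Fin ζ → Fin b) × (Fin n → Fin ζ → Bool)

/-- The sign `±1`. -/
def sgn (t : Bool) : ℝ := if t then 1 else -1

/-- The SparseStack matrix `Ω` (rows `Fin n`, columns `Fin ζ × Fin b`): the block `j` of the row `i`
is `ζ^(-1/2) ρ_ij e_{s_ij}`. -/
noncomputable def Om {n ζ b : ℕ} (ω : Outcome n ζ b) : Matrix (Fin n) (Fin ζ × Fin b) ℝ :=
  fun i q => if ω.1 i q.1 = q.2 then sgn (ω.2 i q.1) / Real.sqrt ζ else 0

/-- The squared Euclidean norm. -/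
def nsq {ι : Type} [Fintype ι] (v : ι → ℝ) : ℝ := ∑ i, v i ^ 2

/-- The mean of `f` when all outcomes have the same probability, that is, when the positions are
independent and uniform on `Fin b` and the signs are independent Rademacher, independent of the
positions. -/
noncomputable def mean {n ζ b : ℕ} (f : Outcome n ζ b → ℝ) : ℝ :=
  (∑ ω, f ω) / Fintype.card (Outcome n ζ b)

open scoped Classical in
/-- The probability of the event `A`. -/
noncomputable def prob {n ζ b : ℕ} (A : Outcome n ζ b → Prop) : ℝ :=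
  mean (fun ω => if A ω then 1 else 0)

/-- `α ‖x‖² ≤ ‖Ωᵀ x‖²` for all `x` in `V`. -/
def Injects {n ζ b : ℕ} (ω : Outcome n ζ b) (V : Submodule ℝ (Fin n → ℝ)) (α : ℝ) : Prop :=
  ∀ x ∈ V, α * nsq x ≤ nsq ((Om ω).transpose.mulVec x)

/-- The SparseStack matrix with parameters `n, ζ, b` is an oblivious subspace injection for the
`r`-dimensional subspaces of `ℝ^n`, with parameter `α` and failure probability `δ`. (The isotropy
condition `E ‖Ωᵀ x‖² = ‖x‖²`, which every SparseStack matrix satisfies, is not repeated here; this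
makes the negative statements below stronger.) -/
def OSI (n ζ b r : ℕ) (α δ : ℝ) : Prop :=
  ∀ V : Submodule ℝ (Fin n → ℝ), Module.finrank ℝ V = r →
    1 - δ ≤ prob (fun ω : Outcome n ζ b => Injects ω V α)

/-- The span of the first `r` coordinate vectors: the vectors `x` with `x i = 0` for `i ≥ r`. -/
def coordSub (n r : ℕ) : Submodule ℝ (Fin n → ℝ) where
  carrier := {x | ∀ i : Fin n, r ≤ i.val → x i = 0}
  add_mem' := by
    intro x y hx hy i hi
    rw [Pi.add_apply, hx i hi, hy i hi, add_zero]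
  zero_mem' := fun i _ => rfl
  smul_mem' := by
    intro c x hx i hi
    rw [Pi.smul_apply, hx i hi, smul_zero]

theorem main (C₁ C₂ α ε : ℝ) (hα : 0 < α) (hε : 0 < ε) :
    ∃ r₀ : ℕ, ∀ r n ζ b : ℕ, r₀ ≤ r → r ≤ n → 1 ≤ ζ → 1 ≤ b → (ζ : ℝ) ≤ C₁ →
      (b : ℝ) * ζ ≤ C₂ * r →
      prob (fun ω : Outcome n ζ b => Injects ω (coordSub n r) α) < ε := by
  have h : ∀ ζ : ℕ, ∃ r₀ : ℕ, 1 ≤ ζ → ∀ r n b : ℕ, r₀ ≤ r → r ≤ n → 1 ≤ b →
      (b : ℝ) * ζ ≤ C₂ * r →
      prob (fun ω : Outcome n ζ b => Injects ω (coordSub n r) α) < ε := by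
    intro ζ
    by_cases hζ : 1 ≤ ζ
    · obtain ⟨r₀, hr⟩ := V7H96.SS.core ζ hζ C₂ α ε hα hε
      exact ⟨r₀, fun _ r n b h1 h2 h3 h4 => hr r n b h1 h2 h3 h4⟩
    · exact ⟨0, fun h => absurd h hζ⟩
  choose R hR using h
  refine ⟨(Finset.range (⌊C₁⌋₊ + 1)).sup R, ?_⟩
  intro r n ζ b hr hrn hζ hb hC hbr
  have h1 : ζ ∈ Finset.range (⌊C₁⌋₊ + 1) := by
    rw [Finset.mem_range]
    exact Nat.lt_succ_of_le (Nat.le_floor hC)
  exact hR ζ hζ r n b ((Finset.le_sup h1).trans hr) hrn hb hbr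

theorem not_OSI {n ζ b r : ℕ} {α : ℝ} (hrn : r ≤ n)
    (h : prob (fun ω : Outcome n ζ b => Injects ω (coordSub n r) α) < 99 / 100) :
    ¬ OSI n ζ b r α (1 / 100) := by
  intro hV
  have h1 := hV (coordSub n r) (V7H96.SS.finrank_coordSub hrn)
  linarith

/-- **Negative answer to Q1 and Q2.** (1) For all `C₁`, `C₂`, `α > 0` and `ε > 0` there is `r₀` such
that for all `r ≥ r₀`, all `n ≥ r` and all `ζ ≤ C₁` and `b` with `b ζ ≤ C₂ r`: the probability that
`α ‖x‖² ≤ ‖Ωᵀ x‖²` for all `x` in the span of the first `r` coordinate vectors, which has dimension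
`r`, is less than `ε`. (2) The negated form of Q1: for all positive `c, C₁, C₂, α₀` there are `n, r`
with `r ≤ c n / log n` such that no SparseStack with `ζ ≤ C₁` and `k = b ζ ≤ C₂ r` is an oblivious
subspace injection with parameter `α₀` (failure probability `0.01`). (3) The answer to Q2 is no: for
every `α₀ > 0` and all large even `r`, the SparseStack with `ζ = 4`, `b = r / 2` is not an oblivious
subspace injection with parameter `α₀`, whatever `n ≥ r`. -/
theorem result :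
    (∀ C₁ C₂ α ε : ℝ, 0 < α → 0 < ε → ∃ r₀ : ℕ, ∀ r n ζ b : ℕ, r₀ ≤ r → r ≤ n → 1 ≤ ζ → 1 ≤ b →
      (ζ : ℝ) ≤ C₁ → (b : ℝ) * ζ ≤ C₂ * r →
      Module.finrank ℝ (coordSub n r) = r ∧
      prob (fun ω : Outcome n ζ b => Injects ω (coordSub n r) α) < ε) ∧
    (∀ c C₁ C₂ α₀ : ℝ, 0 < c → 0 < C₁ → 0 < C₂ → 0 < α₀ → ∃ n r : ℕ, 2 ≤ n ∧ 1 ≤ r ∧ r ≤ n ∧
      (r : ℝ) ≤ c * (n / Real.log n) ∧ ∀ ζ b : ℕ, 1 ≤ ζ → 1 ≤ b → (ζ : ℝ) ≤ C₁ →
        (b : ℝ) * ζ ≤ C₂ * r → ¬ OSI n ζ b r α₀ (1 / 100)) ∧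
    (∀ α₀ : ℝ, 0 < α₀ → ∃ r₀ : ℕ, ∀ r n : ℕ, r₀ ≤ r → Even r → r ≤ n →
      ¬ OSI n 4 (r / 2) r α₀ (1 / 100)) := by
  refine ⟨?_, ?_, ?_⟩
  · intro C₁ C₂ α ε hα hε
    obtain ⟨r₀, hr₀⟩ := main C₁ C₂ α ε hα hε
    exact ⟨r₀, fun r n ζ b h1 h2 h3 h4 h5 h6 =>
      ⟨V7H96.SS.finrank_coordSub h2, hr₀ r n ζ b h1 h2 h3 h4 h5 h6⟩⟩
  · intro c C₁ C₂ α₀ hc _ _ hα
    obtain ⟨r₀, hr₀⟩ := main C₁ C₂ α₀ (99 / 100) hα (by norm_num)
    set r := max r₀ 1 with hr
    have hr1 : 1 ≤ r := le_max_right _ _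
    have hr0 : (0 : ℝ) < r := by exact_mod_cast hr1
    have h1 := Real.isLittleO_log_id_atTop.bound (show (0 : ℝ) < c / r by positivity)
    have h2 : ∀ᶠ n : ℕ in Filter.atTop, ‖Real.log (n : ℝ)‖ ≤ c / r * ‖id (n : ℝ)‖ :=
      tendsto_natCast_atTop_atTop.eventually h1
    obtain ⟨n, hn1, hn2, hn3⟩ := (h2.and ((Filter.eventually_ge_atTop 2).and
      (Filter.eventually_ge_atTop r))).exists
    refine ⟨n, r, hn2, hr1, hn3, ?_, ?_⟩
    · have hn : (2 : ℝ) ≤ n := by exact_mod_cast hn2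
      have hlog : 0 < Real.log n := Real.log_pos (by linarith)
      rw [Real.norm_of_nonneg hlog.le, id, Real.norm_of_nonneg (by linarith)] at hn1
      rw [← mul_div_assoc, le_div_iff₀ hlog]
      calc (r : ℝ) * Real.log n ≤ r * (c / r * n) := by gcongr
        _ = c * n := by field_simp
    · intro ζ b hζ hb hζC hbr
      exact not_OSI hn3 (hr₀ r n ζ b (le_max_left _ _) hn3 hζ hb hζC hbr)
  · intro α₀ hα
    obtain ⟨r₀, hr₀⟩ := main 4 2 α₀ (99 / 100) hα (by norm_num)
    refine ⟨max r₀ 2, fun r n hr he hrn => ?_⟩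
    have hr2 : 2 ≤ r := (le_max_right _ _).trans hr
    refine not_OSI hrn (hr₀ r n 4 (r / 2) ((le_max_left _ _).trans hr) hrn (by norm_num)
      (by omega) (by norm_num) ?_)
    obtain ⟨t, ht⟩ := he
    have h3 : r / 2 = t := by omega
    rw [h3, ht]
    push_cast
    linarith

end Pool.Agent.Results.MP_59a663_pr.NoConstantSparsityH96
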